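import Pool.Agent.Lib_helper52.YG.Defs

set_option autoImplicit false

namespace Pool.Agent.YG

open MeasureTheory ENNReal Set Filter Topology Pool.Agent.EPS

/-- the derivative matrix as a continuous linear map -/
noncomputable def s5_L (a b c d : ℝ) : ℝ × ℝ →L[ℝ] ℝ × ℝ :=
  (Matrix.toLin (Module.Basis.finTwoProd ℝ) (Module.Basis.finTwoProd ℝ)
    !![a, b; c, d]).toContinuousLinearMap

theorem s5_det (a b c d : ℝ) : (s5_L a b c d).det = a * d - b * c := by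
  unfold s5_L
  simp only [LinearMap.det_toContinuousLinearMap, LinearMap.det_toLin,
    Matrix.det_fin_two_of]

theorem s5_fderiv (S1 S2 S3 : ℝ → ℝ) (x y e1 e2 e3 A B C : ℝ) (d1 : HasDerivAt S1 e1 x)
    (d2 : HasDerivAt S2 e2 y) (d3 : HasDerivAt S3 e3 (x + y)) :
    HasFDerivAt (fun p : ℝ × ℝ => (A * S1 p.1 + C * S3 (p.1 + p.2),
      B * S2 p.2 + C * S3 (p.1 + p.2)))
      (s5_L (A * e1 + C * e3) (C * e3) (C * e3) (B * e2 + C * e3)) (x, y) := by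
  have h1 : HasFDerivAt (fun p : ℝ × ℝ => S1 p.1) (e1 • ContinuousLinearMap.fst ℝ ℝ ℝ) (x, y) :=
    HasDerivAt.comp_hasFDerivAt (x, y) (h₂ := S1) (f := fun p : ℝ × ℝ => p.1) d1 hasFDerivAt_fst
  have h2 : HasFDerivAt (fun p : ℝ × ℝ => S2 p.2) (e2 • ContinuousLinearMap.snd ℝ ℝ ℝ) (x, y) :=
    HasDerivAt.comp_hasFDerivAt (x, y) (h₂ := S2) (f := fun p : ℝ × ℝ => p.2) d2 hasFDerivAt_snd
  have h3 : HasFDerivAt (fun p : ℝ × ℝ => S3 (p.1 + p.2))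
      (e3 • (ContinuousLinearMap.fst ℝ ℝ ℝ + ContinuousLinearMap.snd ℝ ℝ ℝ)) (x, y) :=
    HasDerivAt.comp_hasFDerivAt (x, y) (h₂ := S3) (f := fun p : ℝ × ℝ => p.1 + p.2) d3
      (hasFDerivAt_fst.add hasFDerivAt_snd)
  have h4 := ((h1.const_mul A).add (h3.const_mul C)).prodMk
    ((h2.const_mul B).add (h3.const_mul C))
  convert! h4 using 1
  unfold s5_L
  rw [Matrix.toLin_finTwoProd_toContinuousLinearMap]
  ext <;> simp

/-- change of variables in the plane -/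
theorem cov2 (a1 b1 a2 b2 a3 b3 : ℝ) (S1 S2 S3 D1 D2 D3 : ℝ → ℝ)
    (m1 : StrictMonoOn S1 (Ioo a1 b1)) (m2 : StrictMonoOn S2 (Ioo a2 b2))
    (m3 : StrictMonoOn S3 (Ioo a3 b3)) (d1 : ∀ x ∈ Ioo a1 b1, HasDerivAt S1 (D1 x) x)
    (d2 : ∀ x ∈ Ioo a2 b2, HasDerivAt S2 (D2 x) x) (d3 : ∀ x ∈ Ioo a3 b3, HasDerivAt S3 (D3 x) x)
    (p1 : ∀ x ∈ Ioo a1 b1, 0 < D1 x) (p2 : ∀ x ∈ Ioo a2 b2, 0 < D2 x)
    (p3 : ∀ x ∈ Ioo a3 b3, 0 < D3 x) (A B C : ℝ) (hA : 0 < A) (hB : 0 < B) (hC : 0 < C)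
    (G : ℝ × ℝ → ℝ≥0∞) :
    ∫⁻ p in Dom a1 b1 a2 b2 a3 b3, ENNReal.ofReal (A * B * D1 p.1 * D2 p.2 +
        A * C * D1 p.1 * D3 (p.1 + p.2) + B * C * D2 p.2 * D3 (p.1 + p.2)) *
      G (A * S1 p.1 + C * S3 (p.1 + p.2), B * S2 p.2 + C * S3 (p.1 + p.2)) ≤ ∫⁻ q, G q := by
  have hopen : IsOpen (Dom a1 b1 a2 b2 a3 b3) := by
    unfold Dom
    refine IsOpen.inter (isOpen_Ioo.preimage continuous_fst) (IsOpen.inter
      (isOpen_Ioo.preimage continuous_snd) (isOpen_Ioo.preimage (continuous_fst.add continuous_snd)))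
  have hmeas : MeasurableSet (Dom a1 b1 a2 b2 a3 b3) := hopen.measurableSet
  set Ψ : ℝ × ℝ → ℝ × ℝ := fun p => (A * S1 p.1 + C * S3 (p.1 + p.2),
      B * S2 p.2 + C * S3 (p.1 + p.2)) with hΨ
  have key : ∀ p ∈ Dom a1 b1 a2 b2 a3 b3, ∀ q ∈ Dom a1 b1 a2 b2 a3 b3, Ψ p = Ψ q →
      ¬ (p.1 + p.2 < q.1 + q.2) := by
    rintro ⟨x, y⟩ hp ⟨x', y'⟩ hq he hlt
    simp only [hΨ, Prod.mk.injEq] at he
    obtain ⟨e1, e2⟩ := he
    simp only at hlt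
    have h3 : S3 (x + y) < S3 (x' + y') := m3 hp.2.2 hq.2.2 hlt
    have h3' : C * S3 (x + y) < C * S3 (x' + y') := mul_lt_mul_of_pos_left h3 hC
    have g1 : S1 x' < S1 x := by
      have : A * S1 x' < A * S1 x := by linarith
      exact lt_of_mul_lt_mul_left this hA.le
    have g2 : S2 y' < S2 y := by
      have : B * S2 y' < B * S2 y := by linarith
      exact lt_of_mul_lt_mul_left this hB.le
    have k1 : x' < x := (m1.lt_iff_lt hq.1 hp.1).mp g1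
    have k2 : y' < y := (m2.lt_iff_lt hq.2.1 hp.2.1).mp g2
    linarith
  have hinj : InjOn Ψ (Dom a1 b1 a2 b2 a3 b3) := by
    rintro ⟨x, y⟩ hp ⟨x', y'⟩ hq he
    have n1 := key _ hp _ hq he
    have n2 := key _ hq _ hp he.symm
    have hs : x + y = x' + y' := le_antisymm (not_lt.mp n2) (not_lt.mp n1)
    simp only [hΨ, Prod.mk.injEq] at he
    obtain ⟨e1, e2⟩ := he
    rw [hs] at e1 e2
    have g1 : S1 x = S1 x' := by
      have : A * S1 x = A * S1 x' := by linarith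
      exact mul_left_cancel₀ hA.ne' this
    have g2 : S2 y = S2 y' := by
      have : B * S2 y = B * S2 y' := by linarith
      exact mul_left_cancel₀ hB.ne' this
    have k1 : x = x' := m1.injOn hp.1 hq.1 g1
    have k2 : y = y' := m2.injOn hp.2.1 hq.2.1 g2
    rw [k1, k2]
  have hder : ∀ p ∈ Dom a1 b1 a2 b2 a3 b3, HasFDerivWithinAt Ψ
      (s5_L (A * D1 p.1 + C * D3 (p.1 + p.2)) (C * D3 (p.1 + p.2)) (C * D3 (p.1 + p.2))
        (B * D2 p.2 + C * D3 (p.1 + p.2))) (Dom a1 b1 a2 b2 a3 b3) p := by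
    rintro ⟨x, y⟩ hp
    exact (s5_fderiv S1 S2 S3 x y _ _ _ A B C (d1 x hp.1) (d2 y hp.2.1)
      (d3 (x + y) hp.2.2)).hasFDerivWithinAt
  have hmain := lintegral_image_eq_lintegral_abs_det_fderiv_mul volume hmeas hder hinj G
  calc ∫⁻ p in Dom a1 b1 a2 b2 a3 b3, ENNReal.ofReal (A * B * D1 p.1 * D2 p.2 +
        A * C * D1 p.1 * D3 (p.1 + p.2) + B * C * D2 p.2 * D3 (p.1 + p.2)) *
      G (A * S1 p.1 + C * S3 (p.1 + p.2), B * S2 p.2 + C * S3 (p.1 + p.2))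
      = ∫⁻ p in Dom a1 b1 a2 b2 a3 b3, ENNReal.ofReal
        |(s5_L (A * D1 p.1 + C * D3 (p.1 + p.2)) (C * D3 (p.1 + p.2)) (C * D3 (p.1 + p.2))
        (B * D2 p.2 + C * D3 (p.1 + p.2))).det| * G (Ψ p) := by
        refine setLIntegral_congr_fun hmeas (fun p hp => ?_)
        have q1 := p1 p.1 hp.1
        have q2 := p2 p.2 hp.2.1
        have q3 := p3 (p.1 + p.2) hp.2.2
        have hpos : 0 < A * B * D1 p.1 * D2 p.2 +
          A * C * D1 p.1 * D3 (p.1 + p.2) + B * C * D2 p.2 * D3 (p.1 + p.2) := by positivity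
        have hd : (s5_L (A * D1 p.1 + C * D3 (p.1 + p.2)) (C * D3 (p.1 + p.2))
          (C * D3 (p.1 + p.2)) (B * D2 p.2 + C * D3 (p.1 + p.2))).det =
          A * B * D1 p.1 * D2 p.2 +
          A * C * D1 p.1 * D3 (p.1 + p.2) + B * C * D2 p.2 * D3 (p.1 + p.2) := by
          rw [s5_det]; ring
        simp only [hd, abs_of_pos hpos, hΨ]
    _ = ∫⁻ q in Ψ '' Dom a1 b1 a2 b2 a3 b3, G q := hmain.symm
    _ ≤ ∫⁻ q, G q := setLIntegral_le_lintegral _ _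

end Pool.Agent.YG
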