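import Pool.Agent.Lib_helper52.YG.Defs
import Pool.Agent.Lib_helper89.YG.S1
import Pool.Agent.Lib_helper33.YG.S2
import Pool.Agent.Lib_helper53.YG.S3
import Pool.Agent.Lib_helper9.YG.S4
import Pool.Agent.Lib_helper73.YG.S5

set_option autoImplicit false

namespace Pool.Agent.YG

open MeasureTheory ENNReal Set Filter Topology Pool.Agent.EPS

theorem s6_add_ae (a : ℝ) : ∀ᵐ p : ℝ × ℝ, p.1 + p.2 ≠ a := by
  have h : ∀ᵐ x : ℝ, x ≠ a := by simp [ae_iff]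
  have hq : Measure.QuasiMeasurePreserving (fun p : ℝ × ℝ => p.1 + p.2) volume volume :=
    Measure.quasiMeasurePreserving_snd.comp
      (measurePreserving_prod_add (volume : Measure ℝ) (volume : Measure ℝ)).quasiMeasurePreserving
  exact hq.ae h

theorem s6_fst_ae (a : ℝ) : ∀ᵐ p : ℝ × ℝ, p.1 ≠ a := by
  have h : ∀ᵐ x : ℝ, x ≠ a := by simp [ae_iff]
  have hq : Measure.QuasiMeasurePreserving (fun p : ℝ × ℝ => p.1) volume volume :=
    Measure.quasiMeasurePreserving_fst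
  exact hq.ae h

theorem s6_snd_ae (a : ℝ) : ∀ᵐ p : ℝ × ℝ, p.2 ≠ a := by
  have h : ∀ᵐ x : ℝ, x ≠ a := by simp [ae_iff]
  have hq : Measure.QuasiMeasurePreserving (fun p : ℝ × ℝ => p.2) volume volume :=
    Measure.quasiMeasurePreserving_snd
  exact hq.ae h

theorem s6_Ioo {a b m M : ℝ} {f : ℝ → ℝ} (hf : Nice a b m M f) {c x : ℝ} (hc : 0 < c)
    (hx : ENNReal.ofReal (f x) ^ c ≠ 0) (ha : x ≠ a) (hb : x ≠ b) : x ∈ Ioo a b := by
  have h1 : x ∈ Icc a b := by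
    by_contra hn
    apply hx
    rw [hf.off x hn, ENNReal.ofReal_zero, ENNReal.zero_rpow_of_pos hc]
  exact ⟨lt_of_le_of_ne h1.1 (Ne.symm ha), lt_of_le_of_ne h1.2 hb⟩

theorem s6_pos {a b m M : ℝ} {f : ℝ → ℝ} (hf : Nice a b m M f) {x : ℝ} (hx : x ∈ Ioo a b) :
    0 < f x := lt_of_lt_of_le hf.m0 (hf.lo x (Ioo_subset_Icc_self hx))

theorem s6_ga_pos (s : ℝ) : 0 < ga s := Real.exp_pos _

/-- factorisation of one power -/
theorem s6_fac (c s y : ℝ) (hy : 0 < y) :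
    y ^ c = Real.exp (-(Real.pi * (c * s ^ 2))) * (y / ga s) ^ c := by
  have hg := s6_ga_pos s
  have h1 : y = ga s * (y / ga s) := by field_simp
  conv_lhs => rw [h1]
  rw [Real.mul_rpow hg.le (div_pos hy hg).le]
  congr 1
  unfold ga
  rw [← Real.exp_mul]
  congr 1
  ring

theorem s6_ka_pos (c1 c2 c3 : ℝ) : 0 < ka c1 c2 c3 := Real.exp_pos _

/-- the pointwise inequality -/
theorem s6_point {c1 c2 c3 : ℝ} (h : Wt c1 c2 c3) (x y z s1 s2 s3 : ℝ) (hx : 0 < x) (hy : 0 < y)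
    (hz : 0 < z) : x ^ c1 * y ^ c2 * z ^ c3 ≤ (ka c1 c2 c3)⁻¹ *
      ((al c1 * al c2 * (x / ga s1) * (y / ga s2) + al c1 * al c3 * (x / ga s1) * (z / ga s3) +
        al c2 * al c3 * (y / ga s2) * (z / ga s3)) *
        Real.exp (-(Real.pi * qf c1 c2 (al c1 * s1 + al c3 * s3) (al c2 * s2 + al c3 * s3)))) := by
  have t1 : 0 < x / ga s1 := div_pos hx (s6_ga_pos s1)
  have t2 : 0 < y / ga s2 := div_pos hy (s6_ga_pos s2)
  have t3 : 0 < z / ga s3 := div_pos hz (s6_ga_pos s3)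
  have hq := quad h s1 s2 s3
  have ham := amgm3 h _ _ _ t1 t2 t3
  have hk := s6_ka_pos c1 c2 c3
  have h1 := s6_fac c1 s1 x hx
  have h2 := s6_fac c2 s2 y hy
  have h3 := s6_fac c3 s3 z hz
  have e1 : x ^ c1 * y ^ c2 * z ^ c3 =
      Real.exp (-(Real.pi * (c1 * s1 ^ 2 + c2 * s2 ^ 2 + c3 * s3 ^ 2))) *
      ((x / ga s1) ^ c1 * (y / ga s2) ^ c2 * (z / ga s3) ^ c3) := by
    rw [h1, h2, h3]
    have e2 : Real.exp (-(Real.pi * (c1 * s1 ^ 2 + c2 * s2 ^ 2 + c3 * s3 ^ 2))) =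
      Real.exp (-(Real.pi * (c1 * s1 ^ 2))) * Real.exp (-(Real.pi * (c2 * s2 ^ 2))) *
        Real.exp (-(Real.pi * (c3 * s3 ^ 2))) := by
      rw [← Real.exp_add, ← Real.exp_add]
      congr 1
      ring
    rw [e2]
    ring
  have e3 : Real.exp (-(Real.pi * (c1 * s1 ^ 2 + c2 * s2 ^ 2 + c3 * s3 ^ 2))) ≤
      Real.exp (-(Real.pi * qf c1 c2 (al c1 * s1 + al c3 * s3) (al c2 * s2 + al c3 * s3))) := by
    apply Real.exp_le_exp.mpr
    have := mul_le_mul_of_nonneg_left hq Real.pi_pos.le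
    linarith
  have e4 : (x / ga s1) ^ c1 * (y / ga s2) ^ c2 * (z / ga s3) ^ c3 ≤ (ka c1 c2 c3)⁻¹ *
      (al c1 * al c2 * (x / ga s1) * (y / ga s2) + al c1 * al c3 * (x / ga s1) * (z / ga s3) +
        al c2 * al c3 * (y / ga s2) * (z / ga s3)) := by
    have := mul_le_mul_of_nonneg_left ham (inv_nonneg.mpr hk.le)
    rwa [← mul_assoc, inv_mul_cancel₀ hk.ne', one_mul] at this
  have e5 : 0 ≤ (x / ga s1) ^ c1 * (y / ga s2) ^ c2 * (z / ga s3) ^ c3 :=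
    mul_nonneg (mul_nonneg (Real.rpow_nonneg t1.le _) (Real.rpow_nonneg t2.le _))
      (Real.rpow_nonneg t3.le _)
  rw [e1]
  calc _ ≤ Real.exp (-(Real.pi * qf c1 c2 (al c1 * s1 + al c3 * s3) (al c2 * s2 + al c3 * s3))) *
      ((ka c1 c2 c3)⁻¹ *
      (al c1 * al c2 * (x / ga s1) * (y / ga s2) + al c1 * al c3 * (x / ga s1) * (z / ga s3) +
        al c2 * al c3 * (y / ga s2) * (z / ga s3))) :=
        mul_le_mul e3 e4 e5 (Real.exp_pos _).le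
    _ = _ := by ring

theorem s6_al_pos {c : ℝ} (h0 : 0 < c) (h1 : c < 1) : 0 < al c :=
  Real.sqrt_pos.mpr (div_pos h0 (by linarith))

/-- the sharp Young inequality for nice densities -/
theorem young_nice {c1 c2 c3 : ℝ} (h : Wt c1 c2 c3) {a1 b1 m1 M1 a2 b2 m2 M2 a3 b3 m3 M3 : ℝ}
    {f g k : ℝ → ℝ} (hf : Nice a1 b1 m1 M1 f) (hg : Nice a2 b2 m2 M2 g) (hk : Nice a3 b3 m3 M3 k) :
    ∫⁻ p : ℝ × ℝ, ENNReal.ofReal (f p.1) ^ c1 * ENNReal.ofReal (g p.2) ^ c2 *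
      ENNReal.ofReal (k (p.1 + p.2)) ^ c3 ≤ ENNReal.ofReal (Kc c1 c2 c3) := by
  obtain ⟨S1, n1, d1⟩ := inv_tr hf
  obtain ⟨S2, n2, d2⟩ := inv_tr hg
  obtain ⟨S3, n3, d3⟩ := inv_tr hk
  have hopen : IsOpen (Dom a1 b1 a2 b2 a3 b3) := by
    unfold Dom
    refine IsOpen.inter (isOpen_Ioo.preimage continuous_fst) (IsOpen.inter
      (isOpen_Ioo.preimage continuous_snd) (isOpen_Ioo.preimage (continuous_fst.add continuous_snd)))
  have hmeas : MeasurableSet (Dom a1 b1 a2 b2 a3 b3) := hopen.measurableSet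
  have hcov := cov2 a1 b1 a2 b2 a3 b3 S1 S2 S3 (fun x => f x / ga (S1 x))
    (fun x => g x / ga (S2 x)) (fun x => k x / ga (S3 x)) n1 n2 n3 d1 d2 d3
    (fun x hx => div_pos (s6_pos hf hx) (s6_ga_pos _))
    (fun x hx => div_pos (s6_pos hg hx) (s6_ga_pos _))
    (fun x hx => div_pos (s6_pos hk hx) (s6_ga_pos _))
    (al c1) (al c2) (al c3) (s6_al_pos h.a1 h.b1) (s6_al_pos h.a2 h.b2) (s6_al_pos h.a3 h.b3)
    (fun q => ENNReal.ofReal (Real.exp (-(Real.pi * qf c1 c2 q.1 q.2))))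
  rw [gauss2 h] at hcov
  have hae : ∀ᵐ p : ℝ × ℝ, ENNReal.ofReal (f p.1) ^ c1 * ENNReal.ofReal (g p.2) ^ c2 *
      ENNReal.ofReal (k (p.1 + p.2)) ^ c3 ≤ (Dom a1 b1 a2 b2 a3 b3).indicator
      (fun p => ENNReal.ofReal (f p.1) ^ c1 * ENNReal.ofReal (g p.2) ^ c2 *
      ENNReal.ofReal (k (p.1 + p.2)) ^ c3) p := by
    filter_upwards [s6_fst_ae a1, s6_fst_ae b1, s6_snd_ae a2, s6_snd_ae b2, s6_add_ae a3,
      s6_add_ae b3] with p u1 u2 u3 u4 u5 u6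
    by_cases h0 : ENNReal.ofReal (f p.1) ^ c1 * ENNReal.ofReal (g p.2) ^ c2 *
      ENNReal.ofReal (k (p.1 + p.2)) ^ c3 = 0
    · rw [h0]; exact zero_le
    · have w3 : ENNReal.ofReal (k (p.1 + p.2)) ^ c3 ≠ 0 := right_ne_zero_of_mul h0
      have w12 := left_ne_zero_of_mul h0
      have w1 : ENNReal.ofReal (f p.1) ^ c1 ≠ 0 := left_ne_zero_of_mul w12
      have w2 : ENNReal.ofReal (g p.2) ^ c2 ≠ 0 := right_ne_zero_of_mul w12
      have hp : p ∈ Dom a1 b1 a2 b2 a3 b3 :=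
        ⟨s6_Ioo hf h.a1 w1 u1 u2, s6_Ioo hg h.a2 w2 u3 u4, s6_Ioo hk h.a3 w3 u5 u6⟩
      rw [indicator_of_mem hp]
  have hkp := s6_ka_pos c1 c2 c3
  calc ∫⁻ p : ℝ × ℝ, ENNReal.ofReal (f p.1) ^ c1 * ENNReal.ofReal (g p.2) ^ c2 *
      ENNReal.ofReal (k (p.1 + p.2)) ^ c3
      ≤ ∫⁻ p, (Dom a1 b1 a2 b2 a3 b3).indicator
          (fun p => ENNReal.ofReal (f p.1) ^ c1 * ENNReal.ofReal (g p.2) ^ c2 *
          ENNReal.ofReal (k (p.1 + p.2)) ^ c3) p := lintegral_mono_ae hae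
    _ = ∫⁻ p in Dom a1 b1 a2 b2 a3 b3, ENNReal.ofReal (f p.1) ^ c1 * ENNReal.ofReal (g p.2) ^ c2 *
      ENNReal.ofReal (k (p.1 + p.2)) ^ c3 := lintegral_indicator hmeas _
    _ ≤ ∫⁻ p in Dom a1 b1 a2 b2 a3 b3, ENNReal.ofReal (ka c1 c2 c3)⁻¹ *
        (ENNReal.ofReal (al c1 * al c2 * (f p.1 / ga (S1 p.1)) * (g p.2 / ga (S2 p.2)) +
        al c1 * al c3 * (f p.1 / ga (S1 p.1)) * (k (p.1 + p.2) / ga (S3 (p.1 + p.2))) +
        al c2 * al c3 * (g p.2 / ga (S2 p.2)) * (k (p.1 + p.2) / ga (S3 (p.1 + p.2)))) *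
        ENNReal.ofReal (Real.exp (-(Real.pi * qf c1 c2 (al c1 * S1 p.1 + al c3 * S3 (p.1 + p.2))
          (al c2 * S2 p.2 + al c3 * S3 (p.1 + p.2)))))) := by
        refine setLIntegral_mono' hmeas (fun p hp => ?_)
        have q1 := s6_pos hf hp.1
        have q2 := s6_pos hg hp.2.1
        have q3 := s6_pos hk hp.2.2
        rw [ENNReal.ofReal_rpow_of_pos q1, ENNReal.ofReal_rpow_of_pos q2,
          ENNReal.ofReal_rpow_of_pos q3, ← ENNReal.ofReal_mul (Real.rpow_nonneg q1.le _),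
          ← ENNReal.ofReal_mul (mul_nonneg (Real.rpow_nonneg q1.le _) (Real.rpow_nonneg q2.le _)),
          ← ENNReal.ofReal_mul' (Real.exp_pos _).le,
          ← ENNReal.ofReal_mul (inv_nonneg.mpr hkp.le)]
        exact ENNReal.ofReal_le_ofReal (s6_point h _ _ _ _ _ _ q1 q2 q3)
    _ = ENNReal.ofReal (ka c1 c2 c3)⁻¹ * ∫⁻ p in Dom a1 b1 a2 b2 a3 b3,
        (ENNReal.ofReal (al c1 * al c2 * (f p.1 / ga (S1 p.1)) * (g p.2 / ga (S2 p.2)) +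
        al c1 * al c3 * (f p.1 / ga (S1 p.1)) * (k (p.1 + p.2) / ga (S3 (p.1 + p.2))) +
        al c2 * al c3 * (g p.2 / ga (S2 p.2)) * (k (p.1 + p.2) / ga (S3 (p.1 + p.2)))) *
        ENNReal.ofReal (Real.exp (-(Real.pi * qf c1 c2 (al c1 * S1 p.1 + al c3 * S3 (p.1 + p.2))
          (al c2 * S2 p.2 + al c3 * S3 (p.1 + p.2)))))) :=
        lintegral_const_mul' _ _ ENNReal.ofReal_ne_top
    _ ≤ ENNReal.ofReal (ka c1 c2 c3)⁻¹ *
        ENNReal.ofReal (1 / Real.sqrt ((1 - c1) * (1 - c2) * (1 - c3))) := by gcongr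
    _ = ENNReal.ofReal (Kc c1 c2 c3) := by
        rw [← ENNReal.ofReal_mul (inv_nonneg.mpr hkp.le), const_id h]

end Pool.Agent.YG
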